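import Pool.Agent.TH943.CY.Ord

/-!
The twist by a constant which is not a square: `L(g D, T) = L(D, - T)`.
-/

set_option autoImplicit false
set_option maxHeartbeats 1000000

open PowerSeries

namespace Pool.Agent.TH943.CY

open Pool.Agent.W313.Hyp Pool.Agent.W343.BSD Pool.Agent.TH943.HJ

section field

theorem char_ne_two {F : Type} [Field F] (h2 : (2 : F) ≠ 0) : ringChar F ≠ 2 := by
  intro h
  apply h2
  have := ringChar.Nat.cast_ringChar (R := F)
  rw [h] at this
  exact_mod_cast this

theorem two_ne_ext {F F' : Type} [Field F] [Field F'] [Algebra F F'] (h2 : (2 : F) ≠ 0) :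
    (2 : F') ≠ 0 := by
  have : (2 : F') = algebraMap F F' 2 := by rw [map_ofNat]
  rw [this]
  exact (_root_.map_ne_zero _).2 h2

/-- the quadratic character of an extension at an element of the small field -/
theorem chi_ext {F F' : Type} [Field F] [Fintype F] [DecidableEq F] [Field F'] [Fintype F']
    [DecidableEq F'] [Algebra F F'] (h2 : (2 : F) ≠ 0) {c : F} (hc0 : c ≠ 0) :
    quadraticChar F' (algebraMap F F' c) = quadraticChar F c ^ Module.finrank F F' := by
  set d := Module.finrank F F' with hd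
  have hchar := char_ne_two h2
  have h2R : (2 : F') ≠ 0 := two_ne_ext h2
  have hcharR := char_ne_two h2R
  have hcb : algebraMap F F' c ≠ 0 := (_root_.map_ne_zero _).2 hc0
  have hinj : ∀ x y : ℤ, (x = 1 ∨ x = -1) → (y = 1 ∨ y = -1) → (x : F') = (y : F') → x = y := by
    intro x y hx hy hxy
    rcases hx with rfl | rfl <;> rcases hy with rfl | rfl
    · rfl
    · exfalso
      apply h2R
      push_cast at hxy
      linear_combination hxy
    · exfalso
      apply h2R
      push_cast at hxy
      linear_combination -hxy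
    · rfl
  have hk : quadraticChar F c = 1 ∨ quadraticChar F c = -1 := quadraticChar_dichotomy hc0
  have hkd : quadraticChar F c ^ d = 1 ∨ quadraticChar F c ^ d = -1 := by
    rcases hk with h | h
    · left; rw [h, one_pow]
    · rw [h]; exact neg_one_pow_eq_or ℤ d
  apply hinj _ _ (quadraticChar_dichotomy hcb) hkd
  rw [quadraticChar_eq_pow_of_char_ne_two' hcharR]
  have hq : Fintype.card F' = Fintype.card F ^ d := Module.card_eq_pow_finrank
  have hoddq := FiniteField.odd_card_of_char_ne_two hchar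
  have hkp := quadraticChar_eq_pow_of_char_ne_two' hchar c
  set q := Fintype.card F with hqdef
  have hsplit : q ^ d / 2 = q / 2 * ∑ i ∈ Finset.range d, q ^ i := by
    obtain ⟨j, hj⟩ : ∃ j, q = 2 * j + 1 := ⟨q / 2, by omega⟩
    have hj2 : q / 2 = j := by omega
    have hj1 : q - 1 = 2 * j := by omega
    have h4 : (q - 1) * ∑ i ∈ Finset.range d, q ^ i = q ^ d - 1 := by
      rw [mul_comm]
      exact geom_sum_mul_of_one_le (by omega) d
    rw [hj1] at h4
    have hqo : (q ^ d) % 2 = 1 := Nat.odd_iff.1 ((Nat.odd_iff.2 hoddq).pow)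
    rw [hj2]
    have h5 : 2 * (j * ∑ i ∈ Finset.range d, q ^ i) = q ^ d - 1 := by
      rw [← h4]; ring
    omega
  have e3 : (algebraMap F F' c) ^ (q / 2) = ((quadraticChar F c : ℤ) : F') := by
    rw [← map_pow, ← hkp, map_intCast]
  rw [hq, hsplit, pow_mul, e3]
  have hpar : ∀ n : ℕ, (∑ i ∈ Finset.range n, q ^ i) % 2 = n % 2 := by
    intro n
    induction n with
    | zero => simp
    | succ n ih =>
      have h5 : (q ^ n) % 2 = 1 := Nat.odd_iff.1 ((Nat.odd_iff.2 hoddq).pow)
      rw [Finset.sum_range_succ]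
      omega
  rcases hk with h | h
  · rw [h]; simp
  · rw [h]
    push_cast
    rw [neg_one_pow_eq_pow_mod_two (n := ∑ i ∈ Finset.range d, q ^ i), hpar d,
      ← neg_one_pow_eq_pow_mod_two]

/-- the quadratic character of a closed point -/
theorem chi_eq {F : Type} [Field F] [Finite F] (Q : MI F) (h : Polynomial F)
    [Fact (Irreducible Q.1)] [Fintype (AdjoinRoot Q.1)] [DecidableEq (AdjoinRoot Q.1)] :
    chi h Q.1 = quadraticChar (AdjoinRoot Q.1) (AdjoinRoot.mk Q.1 h) := by
  classical
  unfold chi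
  rw [quadraticChar_apply, quadraticCharFun]
  have h1 : Q.1 ∣ h ↔ AdjoinRoot.mk Q.1 h = 0 := AdjoinRoot.mk_eq_zero.symm
  have h2 : (∃ s : Polynomial F, Q.1 ∣ h - s ^ 2) ↔ IsSquare (AdjoinRoot.mk Q.1 h) := by
    constructor
    · rintro ⟨s, hs⟩
      refine ⟨AdjoinRoot.mk Q.1 s, ?_⟩
      rw [← AdjoinRoot.mk_eq_zero, map_sub, map_pow, sub_eq_zero] at hs
      rw [hs, sq]
    · rintro ⟨u, hu⟩
      obtain ⟨s, rfl⟩ := AdjoinRoot.mk_surjective u
      refine ⟨s, ?_⟩
      rw [← AdjoinRoot.mk_eq_zero, map_sub, map_pow, hu, sq, sub_self]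
  simp only [h1, h2]

end field

section

variable {k : Type} [Field k] [Finite k]

omit [Finite k] in
theorem neg_one_of_nonsquare {g : k} (hg : ¬ IsSquare g) [Fintype k] [DecidableEq k] :
    quadraticChar k g = -1 := quadraticChar_neg_one_iff_not_isSquare.2 hg

/-- twisting the character of the line -/
theorem chi_const (h2 : (2 : k) ≠ 0) {g : k} (hg : ¬ IsSquare g) (D : Polynomial k) (P : MI k) :
    chi (Polynomial.C g * D) P.1 = (-1) ^ P.1.natDegree * chi D P.1 := by
  classical
  have := finRF P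
  have := Fintype.ofFinite k
  have := Fintype.ofFinite (RF P)
  have hg0 : g ≠ 0 := by
    rintro rfl
    exact hg (IsSquare.zero)
  rw [chi_eq P, chi_eq P, map_mul, map_mul, AdjoinRoot.mk_C]
  have h1 := chi_ext (F := k) (F' := RF P) h2 hg0
  rw [neg_one_of_nonsquare hg, finrank_RF] at h1
  rw [← h1]
  rfl

/-- twisting the character of a point of the plane -/
theorem chi_tw (h2 : (2 : k) ≠ 0) {g : k} (hg : ¬ IsSquare g) (f : Polynomial k) (e : k)
    (D : Polynomial k) (P : MI k) (Q : MI (RF P)) :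
    chi (tw f e (Polynomial.C g * D) P) Q.1 =
      (-1) ^ (P.1.natDegree * Q.1.natDegree) * chi (tw f e D P) Q.1 := by
  classical
  have := finRF P
  have hQf : Fact (Irreducible Q.1) := ⟨Q.2.2⟩
  have h9 : Finite (AdjoinRoot Q.1) := finRF Q
  have := Fintype.ofFinite k
  have := Fintype.ofFinite (AdjoinRoot Q.1)
  have hg0 : g ≠ 0 := by
    rintro rfl
    exact hg (IsSquare.zero)
  rw [chi_eq Q, chi_eq Q]
  have h3 : tw f e (Polynomial.C g * D) P =
      Polynomial.C (algebraMap k (RF P) g) * tw f e D P := by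
    unfold tw
    rw [map_mul, AdjoinRoot.mk_C, Polynomial.C_mul, mul_assoc]
    rfl
  rw [h3, map_mul, map_mul, AdjoinRoot.mk_C]
  have h1 := chi_ext (F := k) (F' := AdjoinRoot Q.1) h2 hg0
  rw [neg_one_of_nonsquare hg, finrank_two] at h1
  rw [← h1]
  rfl

/-- the change of variable `T → - T` in an Euler product -/
theorem rescale_eulerProd {ι : Type} {d : ι → ℕ} (hfin : ∀ n, {i | d i ≤ n}.Finite)
    (f : ι → PowerSeries ℤ) :
    rescale (-1 : ℤ) (eulerProd d f) = eulerProd d (fun i => rescale (-1 : ℤ) (f i)) := by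
  ext n
  rw [coeff_rescale, coeff_eulerProd hfin, coeff_eulerProd hfin, ← map_prod, coeff_rescale]

theorem rescale_factor (c : ℤ) (n : ℕ) :
    rescale (-1 : ℤ) (1 - C c * X ^ n) = 1 - C ((-1) ^ n * c) * X ^ n := by
  rw [map_sub, map_one, map_mul, map_pow, rescale_X]
  have h1 : rescale (-1 : ℤ) (C c) = C c := by
    ext m
    rw [coeff_rescale, coeff_C]
    split_ifs with h
    · rw [h, pow_zero, one_mul]
    · rw [mul_zero]
  rw [h1, mul_pow, map_mul, map_pow]
  ring

theorem plane_finite (D : Polynomial k) (n : ℕ) :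
    {z : (Σ P : {P : MI k // ¬ P.1 ∣ D}, MI (RF P.1)) |
      z.1.1.1.natDegree * z.2.1.natDegree ≤ n}.Finite := by
  have hfin : ∀ P : MI k, Finite (RF P) := finRF
  exact sigma_finite (ι := {P : MI k // ¬ P.1 ∣ D}) (κ := fun P => MI (RF P.1))
    (d := fun P => P.1.1.natDegree) (e := fun P Q => Q.1.natDegree)
    (fun n => Set.Finite.of_finite_image (f := fun i : {P : MI k // ¬ P.1 ∣ D} => i.1)
      ((finite_deg_le (F := k) n).subset (by rintro _ ⟨i, hi, rfl⟩; exact hi))
      (Set.injOn_of_injective Subtype.val_injective))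
    (fun P => MI.deg_pos P.1) (fun P n => finite_deg_le n) (fun P Q => MI.deg_pos Q) n

theorem eulerProd_comp {ι κ : Type} (e : ι ≃ κ) (d : κ → ℕ) (f : κ → PowerSeries ℤ) :
    eulerProd d f = eulerProd (fun i => d (e i)) (fun i => f (e i)) := by
  unfold eulerProd
  ext n
  rw [PowerSeries.coeff_mk, PowerSeries.coeff_mk]
  congr 1
  exact (finprod_comp_equiv e (f := fun z : κ => ∏ᶠ (_ : d z ≤ n), f z)).symm

/-- **the twist by a constant** -/
theorem LF_twist (h2 : (2 : k) ≠ 0) {g : k} (hg : ¬ IsSquare g) (f : Polynomial k) (e : k)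
    (D : Polynomial k) :
    LF f e (Polynomial.C g * D) * locA (Polynomial.C g * D) 1 =
      rescale (-1 : ℤ) (LF f e D * locA D 1) := by
  have hg0 : g ≠ 0 := by
    rintro rfl
    exact hg (IsSquare.zero)
  have hu : IsUnit (Polynomial.C g) := Polynomial.isUnit_C.2 (isUnit_iff_ne_zero.2 hg0)
  rw [map_mul]
  congr 1
  · unfold LF
    rw [rescale_eulerProd (plane_finite D)]
    have hiff : ∀ P : MI k, ¬ P.1 ∣ D ↔ ¬ P.1 ∣ Polynomial.C g * D := by
      intro P
      rw [hu.dvd_mul_left]
    let E : (Σ P : {P : MI k // ¬ P.1 ∣ D}, MI (RF P.1)) ≃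
        (Σ P : {P : MI k // ¬ P.1 ∣ Polynomial.C g * D}, MI (RF P.1)) :=
      { toFun := fun z => ⟨⟨z.1.1, (hiff _).1 z.1.2⟩, z.2⟩
        invFun := fun z => ⟨⟨z.1.1, (hiff _).2 z.1.2⟩, z.2⟩
        left_inv := fun _ => rfl
        right_inv := fun _ => rfl }
    rw [eulerProd_comp E]
    congr 1
    funext z
    show ptFactor (tw f e (Polynomial.C g * D) z.1.1) z.1.1.1.natDegree z.2 = _
    unfold ptFactor
    rw [chi_tw h2 hg, rescale_factor]
  · unfold locA
    rw [rescale_eulerProd (finite_d one_pos)]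
    congr 1
    funext P
    unfold ptFactor
    rw [chi_const h2 hg, rescale_factor, one_mul]

/-- the two linear factors have no common divisor -/
theorem relPrime (q : ℤ) (a b : ℕ) :
    IsRelPrime ((1 - Polynomial.C q * Polynomial.X : Polynomial ℤ) ^ a)
      ((1 + Polynomial.C q * Polynomial.X) ^ b) := by
  apply IsRelPrime.pow
  intro u h1 h2
  have h3 : u ∣ Polynomial.C 2 := by
    have := dvd_add h1 h2
    have h4 : (1 - Polynomial.C q * Polynomial.X : Polynomial ℤ) +
        (1 + Polynomial.C q * Polynomial.X) = Polynomial.C 2 := by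
      rw [show (Polynomial.C 2 : Polynomial ℤ) = 2 from Polynomial.C_ofNat 2]
      ring
    rwa [h4] at this
  have h5 : u.natDegree = 0 := by
    have h6 := Polynomial.natDegree_le_of_dvd h3 (by
      rw [Ne, Polynomial.C_eq_zero]; norm_num)
    rw [Polynomial.natDegree_C] at h6
    omega
  rw [Polynomial.eq_C_of_natDegree_eq_zero h5] at h1 ⊢
  have h7 := (Polynomial.C_dvd_iff_dvd_coeff _ _).1 h1 0
  rw [Polynomial.coeff_sub, Polynomial.coeff_one_zero, Polynomial.coeff_C_mul,
    Polynomial.coeff_X_zero, mul_zero, sub_zero] at h7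
  rw [Polynomial.isUnit_C]
  exact isUnit_of_dvd_one h7

/-- the combination of the two orders -/
theorem combine (h2 : (2 : k) ≠ 0) {g : k} (hg : ¬ IsSquare g) (f : Polynomial k) (e : k)
    (D : Polynomial k) (a b : ℕ) (G1 G2 : Polynomial ℤ)
    (h : LF f e D * locA D 1 = (((1 - Polynomial.C (Nat.card k : ℤ) * Polynomial.X) ^ a * G1 :
        Polynomial ℤ) : PowerSeries ℤ))
    (h' : LF f e (Polynomial.C g * D) * locA (Polynomial.C g * D) 1 =
      (((1 - Polynomial.C (Nat.card k : ℤ) * Polynomial.X) ^ b * G2 :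
        Polynomial ℤ) : PowerSeries ℤ)) :
    ∃ G : Polynomial ℤ, LF f e D * locA D 1 =
      (((1 - Polynomial.C (Nat.card k : ℤ) * Polynomial.X) ^ a *
        (1 + Polynomial.C (Nat.card k : ℤ) * Polynomial.X) ^ b * G :
        Polynomial ℤ) : PowerSeries ℤ) := by
  set q : ℤ := (Nat.card k : ℤ) with hq
  rw [LF_twist h2 hg] at h'
  have h3 := congrArg (rescale (-1 : ℤ)) h'
  rw [rescale_rescale, mul_neg, mul_one, neg_neg, rescale_one, RingHom.id_apply] at h3
  have h4 : ∀ F : Polynomial ℤ, rescale (-1 : ℤ) (F : PowerSeries ℤ) =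
      ((F.comp (Polynomial.C (-1) * Polynomial.X) : Polynomial ℤ) : PowerSeries ℤ) := by
    intro F
    ext n
    rw [coeff_rescale, Polynomial.coeff_coe, Polynomial.coeff_coe,
      Polynomial.comp_C_mul_X_coeff, mul_comm]
  rw [h4] at h3
  have h5 : (1 - Polynomial.C q * Polynomial.X) ^ a * G1 =
      ((1 - Polynomial.C q * Polynomial.X) ^ b * G2).comp
        (Polynomial.C (-1) * Polynomial.X) := by
    apply Polynomial.coe_injective
    rw [← h, ← h3]
  have h6 : ((1 - Polynomial.C q * Polynomial.X) ^ b * G2).comp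
        (Polynomial.C (-1) * Polynomial.X) = (1 + Polynomial.C q * Polynomial.X) ^ b *
        G2.comp (Polynomial.C (-1) * Polynomial.X) := by
    rw [Polynomial.mul_comp, Polynomial.pow_comp, Polynomial.sub_comp, Polynomial.one_comp,
      Polynomial.mul_comp, Polynomial.C_comp, Polynomial.X_comp]
    congr 2
    rw [Polynomial.C_neg, Polynomial.C_1]
    ring
  rw [h6] at h5
  have h7 : (1 - Polynomial.C q * Polynomial.X) ^ a * (1 + Polynomial.C q * Polynomial.X) ^ b ∣
      (1 - Polynomial.C q * Polynomial.X) ^ a * G1 := by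
    apply (relPrime q a b).mul_dvd
    · exact dvd_mul_right _ _
    · rw [h5]
      exact dvd_mul_right _ _
  obtain ⟨G, hG⟩ := h7
  exact ⟨G, by rw [h, hG]⟩

end

end Pool.Agent.TH943.CY
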