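import Mathlib.FieldTheory.Finite.GaloisField
import Mathlib.FieldTheory.KummerPolynomial
import Pool.Agent.TH943.PT.DkC
import Pool.Agent.TH943.CY.Tw

/-!
The primes whose constant coefficient is not an `ℓ`-th power.
-/

set_option autoImplicit false
set_option maxHeartbeats 1000000

open Polynomial

namespace Pool.Agent.TH943.CY

open Pool.Agent.W313.Hyp Pool.Agent.TH943.HJ

/-- The constant coefficient is an `ℓ`-th power, and not zero. -/
def PowCoeff {k : Type} [Field k] (ℓ : ℕ) (P : k[X]) : Prop := ∃ c : k, c ≠ 0 ∧ P.coeff 0 = c ^ ℓ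

section

variable {k : Type} [Field k] {L : Type} [Field L] [Algebra k L]

/-- the norm of an element of full degree -/
theorem norm_eq {N : ℕ} (hN : Module.finrank k L = N) [FiniteDimensional k L] {u : L}
    (hu : (minpoly k u).natDegree = N) :
    Algebra.norm k u = (-1) ^ N * (minpoly k u).coeff 0 := by
  have hint : IsIntegral k u := Algebra.IsIntegral.isIntegral u
  have htop : IntermediateField.adjoin k {u} = ⊤ := by
    apply Field.primitive_element_iff_minpoly_natDegree_eq k u |>.2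
    rw [hu, hN]
  rw [Algebra.norm_eq_norm_adjoin k u]
  have h1 := Algebra.PowerBasis.norm_gen_eq_coeff_zero_minpoly
    (IntermediateField.adjoin.powerBasis hint)
  rw [IntermediateField.adjoin.powerBasis_gen, IntermediateField.minpoly_gen,
    IntermediateField.adjoin.powerBasis_dim, hu] at h1
  rw [h1, htop, IntermediateField.finrank_top, pow_one]

end

section irr

variable {k : Type} [Field k] [Finite k] {ℓ : ℕ}

omit [Finite k] in
theorem neg_one_pow_pow (ho : Odd ℓ) (N : ℕ) : ((-1 : k) ^ N) ^ ℓ = (-1) ^ N := by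
  rw [← pow_mul, mul_comm, pow_mul, ho.neg_one_pow]

omit [Finite k] in
/-- if the constant coefficient is not an `ℓ`-th power then `P(x ^ ℓ)` is irreducible -/
theorem irr_comp (hℓ : ℓ.Prime) (ho : Odd ℓ) (P : MI k) (h0 : P.1.coeff 0 ≠ 0)
    (hP : ¬ PowCoeff ℓ P.1) : Irreducible (P.1.comp (X ^ ℓ)) := by
  have hfd := fd1 P
  have hint : IsIntegral k (AdjoinRoot.root P.1 : RF P) := Algebra.IsIntegral.isIntegral _
  have hmin : minpoly k (AdjoinRoot.root P.1 : RF P) = P.1 := by
    rw [AdjoinRoot.minpoly_root P.2.2.ne_zero]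
    rw [P.2.1.leadingCoeff, inv_one, C_1, mul_one]
  have hN := finrank_RF P
  have h1 := Pool.Agent.TH943.PT.irreducible_comp_of (k := k) (L := RF P) (f := X ^ ℓ)
    (monic_X_pow ℓ) (by rw [natDegree_X_pow]; exact hℓ.pos)
    (u := AdjoinRoot.root P.1) hint ?_
  · rwa [hmin] at h1
  · rw [Polynomial.map_pow, map_X]
    apply X_pow_sub_C_irreducible_of_prime hℓ
    intro b hb
    apply hP
    have h2 := norm_eq hN (u := (AdjoinRoot.root P.1 : RF P)) (by rw [hmin])
    rw [hmin, ← hb, map_pow] at h2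
    have h3 : P.1.coeff 0 = ((-1) ^ P.1.natDegree * Algebra.norm k b) ^ ℓ := by
      rw [mul_pow, neg_one_pow_pow ho, h2, ← mul_assoc, ← mul_pow]
      simp
    refine ⟨_, ?_, h3⟩
    intro h4
    rw [h4, zero_pow hℓ.ne_zero] at h3
    exact h0 h3

/-- the sum over the points of a prime outside -/
theorem sum_over (hℓ : ℓ.Prime) (ho : Odd ℓ) (P : MI k) (hP : ¬ PowCoeff ℓ P.1) :
    ∑ R ∈ facs (P.1.comp (X ^ ℓ)), Pool.Agent.W343.BSD.twoPart R.1.natDegree =
      Pool.Agent.W343.BSD.twoPart P.1.natDegree := by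
  classical
  by_cases h0 : P.1.coeff 0 = 0
  · have hX : X ∣ P.1 := X_dvd_iff.2 h0
    have hPX : P.1 = X := by
      have := (irreducible_X (R := k)).associated_of_dvd P.2.2 hX
      exact (eq_of_monic_of_associated monic_X P.2.1 this).symm
    rw [hPX, X_comp]
    have h1 : facs (X ^ ℓ : k[X]) = {P} := by
      ext R
      rw [mem_facs (pow_ne_zero _ X_ne_zero), Finset.mem_singleton]
      constructor
      · intro h
        have h2 := R.2.2.prime.dvd_of_dvd_pow h
        rw [← hPX] at h2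
        exact eq_of_dvd_MI h2
      · rintro rfl
        rw [hPX]
        exact dvd_pow_self _ hℓ.ne_zero
    rw [h1, Finset.sum_singleton, hPX]
  · exact Pool.Agent.TH943.PT.sum_over_inert (monic_X_pow ℓ) (by rw [natDegree_X_pow]; exact ho) P
      (irr_comp hℓ ho P h0 hP)

end irr

section count

variable {k : Type} [Field k] [Finite k] {ℓ : ℕ}

/-- the number of the elements whose norm is an `ℓ`-th power -/
theorem card_norm {L : Type} [Field L] [Algebra k L] [Finite L]
    (hd : ℓ ∣ Nat.card k - 1) :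
    ℓ * {u : L | u ≠ 0 ∧ ∃ c : k, c ≠ 0 ∧ Algebra.norm k u = c ^ ℓ}.ncard = Nat.card L - 1 := by
  classical
  let φ : Lˣ →* kˣ := Units.map (Algebra.norm k (S := L))
  have hφ : Function.Surjective φ := FiniteField.unitsMap_norm_surjective k L
  let H : Subgroup Lˣ := (powMonoidHom ℓ : kˣ →* kˣ).range.comap φ
  have h1 : H.index = ℓ := by
    rw [Subgroup.index_comap_of_surjective _ hφ, IsCyclic.index_powMonoidHom_range, Nat.card_units]
    exact Nat.gcd_eq_right hd
  have h2 := H.card_mul_index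
  rw [h1, Nat.card_units] at h2
  rw [← h2, mul_comm]
  congr 1
  rw [← Nat.card_coe_set_eq]
  refine Nat.card_congr ?_
  exact
    { toFun := fun u => ⟨Units.mk0 u.1 u.2.1, by
        obtain ⟨c, hc, h⟩ := u.2.2
        refine ⟨Units.mk0 c hc, ?_⟩
        ext
        exact h.symm⟩
      invFun := fun u => ⟨(u.1 : L), u.1.ne_zero, by
        obtain ⟨c, hc⟩ := u.2
        exact ⟨c, c.ne_zero, (congrArg Units.val hc).symm⟩⟩
      left_inv := fun u => by ext; rfl
      right_inv := fun u => by ext; rfl }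

/-- the number of the primes with constant coefficient not an `ℓ`-th power -/
theorem count_primes (ho : Odd ℓ) (hd : ℓ ∣ Nat.card k - 1) {N : ℕ} (hN : 0 < N) :
    |(ℓ : ℤ) * ((N : ℤ) * ({P : {P : k[X] // P.Monic ∧ Irreducible P} | P.1.natDegree = N ∧
        ¬ PowCoeff ℓ P.1}.ncard : ℤ)) - (ℓ - 1) * (Nat.card k : ℤ) ^ N| ≤
      1 + ℓ * ∑ d ∈ N.properDivisors, (Nat.card k : ℤ) ^ d := by
  classical
  obtain ⟨p, hp⟩ := CharP.exists k
  have : Fact (Nat.Prime p) := ⟨CharP.char_is_prime k p⟩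
  have : NeZero N := ⟨hN.ne'⟩
  let L := FiniteField.Extension k p N
  have hfin : Module.finrank k L = N := FiniteField.finrank_extension k p N
  have hLk : Module.Finite k L := Module.Finite.of_finite
  have hcard : Nat.card L = Nat.card k ^ N := FiniteField.natCard_extension k p N
  have hc := Pool.Agent.TH943.PT.count hfin (fun P => ¬ PowCoeff ℓ P)
  have hs := Pool.Agent.TH943.PT.ncard_small (k := k) (L := L) hfin
  set M : Set L := {u : L | u ≠ 0 ∧ ∃ c : k, c ≠ 0 ∧ Algebra.norm k u = c ^ ℓ} with hM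
  have hMc : ℓ * M.ncard = Nat.card k ^ N - 1 := by
    rw [hM, card_norm hd, hcard]
  set U : Set L := {u : L | (minpoly k u).natDegree = N ∧ ¬ PowCoeff ℓ (minpoly k u)} with hU
  set S0 : Set L := {u : L | (minpoly k u).natDegree ≠ N} with hS0
  have hkey : ∀ u : L, (minpoly k u).natDegree = N → (u ∈ M ↔ PowCoeff ℓ (minpoly k u)) := by
    intro u hu
    have h1 := norm_eq hfin hu
    constructor
    · rintro ⟨hu0, c, hc, h⟩
      refine ⟨(-1) ^ N * c, mul_ne_zero (pow_ne_zero _ (neg_ne_zero.2 one_ne_zero)) hc, ?_⟩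
      rw [mul_pow, neg_one_pow_pow ho, ← h, h1, ← mul_assoc, ← mul_pow]
      simp
    · rintro ⟨c, hc, h⟩
      have h2 : Algebra.norm k u = ((-1) ^ N * c) ^ ℓ := by
        rw [mul_pow, neg_one_pow_pow ho, ← h, h1]
      have hne : ((-1 : k) ^ N * c) ≠ 0 :=
        mul_ne_zero (pow_ne_zero _ (neg_ne_zero.2 one_ne_zero)) hc
      refine ⟨?_, _, hne, h2⟩
      rintro rfl
      rw [Algebra.norm_zero] at h2
      exact pow_ne_zero _ hne h2.symm
  have hUM : U ⊆ Mᶜ := fun u hu hm => hu.2 ((hkey u hu.1).1 hm)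
  have hMU : Mᶜ ⊆ U ∪ S0 := by
    intro u hu
    by_cases h : (minpoly k u).natDegree = N
    · exact Or.inl ⟨h, fun h' => hu ((hkey u h).2 h')⟩
    · exact Or.inr h
  have h5 := Set.ncard_le_ncard hUM (Set.toFinite _)
  have h6 := Set.ncard_le_ncard hMU (Set.toFinite _)
  have h7 := Set.ncard_union_le U S0
  have h8 := Set.ncard_add_ncard_compl M
  rw [hcard] at h8
  have hq1 : 1 ≤ Nat.card k ^ N := Nat.one_le_pow _ _ Nat.card_pos
  have e1 : (N : ℤ) * ({P : {P : k[X] // P.Monic ∧ Irreducible P} | P.1.natDegree = N ∧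
        ¬ PowCoeff ℓ P.1}.ncard : ℤ) = (U.ncard : ℤ) := by exact_mod_cast hc
  have e2 : (ℓ : ℤ) * M.ncard = (Nat.card k : ℤ) ^ N - 1 := by
    have : ((ℓ * M.ncard : ℕ) : ℤ) = ((Nat.card k ^ N - 1 : ℕ) : ℤ) := by rw [hMc]
    rw [Nat.cast_sub hq1] at this
    push_cast at this
    exact this
  have e3 : (M.ncard : ℤ) + (Mᶜ.ncard : ℤ) = (Nat.card k : ℤ) ^ N := by exact_mod_cast h8
  have e4 : (U.ncard : ℤ) ≤ Mᶜ.ncard := by exact_mod_cast h5
  have e5 : (Mᶜ.ncard : ℤ) ≤ U.ncard + ∑ d ∈ N.properDivisors, (Nat.card k : ℤ) ^ d := by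
    have : Mᶜ.ncard ≤ U.ncard + ∑ d ∈ N.properDivisors, Nat.card k ^ d :=
      h6.trans (h7.trans (Nat.add_le_add_left hs _))
    exact_mod_cast this
  rw [e1]
  have hl : (0 : ℤ) ≤ ℓ := Int.natCast_nonneg _
  have e6 := mul_le_mul_of_nonneg_left e4 hl
  have e7 := mul_le_mul_of_nonneg_left e5 hl
  have e8 : (ℓ : ℤ) * Mᶜ.ncard = ℓ * (Nat.card k : ℤ) ^ N - ((Nat.card k : ℤ) ^ N - 1) := by
    linear_combination (ℓ : ℤ) * e3 - e2
  have e9 : 0 ≤ (ℓ : ℤ) * ∑ d ∈ N.properDivisors, (Nat.card k : ℤ) ^ d :=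
    mul_nonneg hl (Finset.sum_nonneg fun d _ => by positivity)
  rw [abs_le]
  constructor <;> linarith

end count

end Pool.Agent.TH943.CY
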