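import Pool.Agent.TH943.HJ.Glob
import Pool.Agent.TH943.PT.Ord

/-!
The identity modulo two for the `L`-function of the twists of `y ^ 2 = (x - e) (f(x) - t)`.
-/

set_option autoImplicit false
set_option maxHeartbeats 1000000

open PowerSeries

namespace Pool.Agent.TH943.CY

open Pool.Agent.W313.Hyp Pool.Agent.W343.BSD Pool.Agent.TH943.HJ

section

variable {k : Type} [Field k]

/-- The polynomial `D(t) (x - e) (f(x) - t)` over the residue field at `P`. -/
noncomputable def tw (f : Polynomial k) (e : k) (D : Polynomial k) (P : MI k) :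
    Polynomial (RF P) :=
  Polynomial.C (AdjoinRoot.mk P.1 D) *
    ((Polynomial.X - Polynomial.C (algebraMap k (RF P) e)) * fib f P)

/-- The part of the `L`-function of the closed points of the affine plane with `D(t) ≠ 0`. -/
noncomputable def LF (f : Polynomial k) (e : k) (D : Polynomial k) : PowerSeries ℤ :=
  eulerProd (fun z : (Σ P : {P : MI k // ¬ P.1 ∣ D}, MI (RF P.1)) =>
      z.1.1.1.natDegree * z.2.1.natDegree)
    (fun z => ptFactor (tw f e D z.1.1) z.1.1.1.natDegree z.2)

theorem tw_ne {f : Polynomial k} {e : k} {D : Polynomial k} (hf : 0 < f.natDegree) {P : MI k}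
    (hP : ¬ P.1 ∣ D) : tw f e D P ≠ 0 := by
  refine mul_ne_zero ?_ (mul_ne_zero (Polynomial.X_sub_C_ne_zero _) (fib_ne hf P))
  rw [Ne, Polynomial.C_eq_zero, AdjoinRoot.mk_eq_zero]
  exact hP

theorem dvd_tw {f : Polynomial k} {e : k} {D : Polynomial k} {P : MI k} (hP : ¬ P.1 ∣ D)
    (Q : MI (RF P)) :
    Q.1 ∣ tw f e D P ↔ Q.1 ∣ (Polynomial.X - Polynomial.C (algebraMap k (RF P) e)) ∨
      Q.1 ∣ fib f P := by
  unfold tw
  have h0 : AdjoinRoot.mk P.1 D ≠ 0 := by
    rw [Ne, AdjoinRoot.mk_eq_zero]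
    exact hP
  have hu : IsUnit (Polynomial.C (AdjoinRoot.mk P.1 D)) :=
    Polynomial.isUnit_C.2 (isUnit_iff_ne_zero.2 h0)
  rw [hu.dvd_mul_left]
  exact Q.2.2.prime.dvd_mul

/-- The point `x = e` of a fibre. -/
noncomputable def ept (e : k) (P : MI k) : MI (RF P) :=
  ⟨Polynomial.X - Polynomial.C (algebraMap k (RF P) e), Polynomial.monic_X_sub_C _,
    Polynomial.irreducible_X_sub_C _⟩

/-- The place `t = f(e)`. -/
noncomputable def epl (f : Polynomial k) (e : k) : MI k :=
  ⟨Polynomial.X - Polynomial.C (f.eval e), Polynomial.monic_X_sub_C _,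
    Polynomial.irreducible_X_sub_C _⟩

theorem epl_deg (f : Polynomial k) (e : k) : (epl f e).1.natDegree = 1 :=
  Polynomial.natDegree_X_sub_C _

theorem ept_deg (e : k) (P : MI k) : (ept e P).1.natDegree = 1 :=
  Polynomial.natDegree_X_sub_C _

theorem ept_dvd {f : Polynomial k} {e : k} {P : MI k} : (ept e P).1 ∣ fib f P ↔ P = epl f e := by
  show (Polynomial.X - Polynomial.C (algebraMap k (RF P) e)) ∣ _ ↔ _
  rw [Polynomial.dvd_iff_isRoot, Polynomial.IsRoot, fib, Polynomial.eval_sub, Polynomial.eval_C,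
    Polynomial.eval_map_algebraMap, Polynomial.aeval_algebraMap_apply]
  have h1 : algebraMap k (RF P) (Polynomial.aeval e f) - AdjoinRoot.root P.1 =
      AdjoinRoot.mk P.1 (-(epl f e).1) := by
    show _ = AdjoinRoot.mk P.1 (-(Polynomial.X - Polynomial.C (f.eval e)))
    rw [neg_sub, map_sub, AdjoinRoot.mk_C, AdjoinRoot.mk_X]
    rfl
  rw [h1, AdjoinRoot.mk_eq_zero, dvd_neg]
  constructor
  · intro h
    exact eq_of_dvd_MI h
  · rintro rfl
    exact dvd_rfl

variable [Finite k]

open Classical in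
theorem facs_tw {f : Polynomial k} {e : k} {D : Polynomial k} (hf : 0 < f.natDegree) {P : MI k}
    (hP : ¬ P.1 ∣ D) : facs (tw f e D P) = insert (ept e P) (facs (fib f P)) := by
  have := finRF P
  ext Q
  rw [mem_facs (tw_ne hf hP), dvd_tw hP, Finset.mem_insert, mem_facs (fib_ne hf P)]
  refine or_congr_left ?_
  constructor
  · intro h
    exact eq_of_dvd_MI h
  · rintro rfl
    exact dvd_rfl

theorem LF_eq (f : Polynomial k) (e : k) (D : Polynomial k)
    [DecidablePred fun P : MI k => ¬ P.1 ∣ D] :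
    LF f e D = eulerProd (fun P : MI k => P.1.natDegree)
      (fun P => if ¬ P.1 ∣ D then locA (tw f e D P) P.1.natDegree else 1) := by
  have hfin : ∀ P : MI k, Finite (RF P) := finRF
  unfold LF
  rw [eulerProd_sigma (ι := {P : MI k // ¬ P.1 ∣ D}) (κ := fun P => MI (RF P.1))
    (d := fun P => P.1.1.natDegree) (e := fun P Q => Q.1.natDegree)
    (fun n => Set.Finite.of_finite_image (f := fun i : {P : MI k // ¬ P.1 ∣ D} => i.1)
      ((finite_deg_le (F := k) n).subset (by rintro _ ⟨i, hi, rfl⟩; exact hi))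
      (Set.injOn_of_injective Subtype.val_injective))
    (fun P => MI.deg_pos P.1) (fun P n => finite_deg_le n) (fun P Q => MI.deg_pos Q) _
    (fun p => ptFactor_dvd _ _ _)]
  exact eulerProd_subtype (fun P : MI k => ¬ P.1 ∣ D) (d := fun P => P.1.natDegree)
    (fun n => finite_deg_le (F := k) n) (f := fun P => locA (tw f e D P) P.1.natDegree)
    (fun P _ => locA_dvd (tw f e D P) (MI.deg_pos P))

theorem mod_pow_ne_zero {d : ℕ} (hd : 0 < d) : (1 + X ^ d : PowerSeries (ZMod 2)) ≠ 0 := by
  intro h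
  have h1 := congrArg (coeff 0) h
  rw [map_add, coeff_zero_one, coeff_X_pow, if_neg (by omega), add_zero, map_zero] at h1
  exact one_ne_zero h1

open Classical in
/-- the identity modulo two -/
theorem identity (hq : ((Nat.card k : ℕ) : ZMod 2) = 1) {f : Polynomial k} {e : k}
    {D : Polynomial k} (hf : 0 < f.natDegree) (hD : D ≠ 0) :
    red2 (LF f e D * locA D 1) * ∏ P ∈ facs D, (1 + X ^ P.1.natDegree) =
      (if (epl f e).1 ∣ D then 1 else 1 + X) *
        ∏ P ∈ facs D, ∏ R ∈ facs (P.1.comp f), (1 + X ^ R.1.natDegree) := by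
  have hfin : ∀ P : MI k, Finite (RF P) := finRF
  have hfd := fun n => finite_deg_le (F := k) n
  set Φ : MI k → PowerSeries (ZMod 2) :=
    fun P => ∏ R ∈ facs (P.1.comp f), (1 + X ^ R.1.natDegree) with hΦ
  set W : MI k → PowerSeries (ZMod 2) :=
    fun P => red2 (if ¬ P.1 ∣ D then locA (tw f e D P) P.1.natDegree else 1) with hW
  set Z : MI k → PowerSeries (ZMod 2) := fun P => 1 + X ^ P.1.natDegree with hZ
  have hmem : ∀ P R : MI k, R ∈ facs (P.1.comp f) ↔ R.1 ∣ P.1.comp f :=
    fun P R => mem_facs (comp_ne hf P) R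
  have hdeg : ∀ P R : MI k, R ∈ facs (P.1.comp f) → P.1.natDegree ≤ R.1.natDegree := by
    intro P R hR
    rw [hmem] at hR
    obtain ⟨Q, hQ, rfl⟩ := down_surj R hR
    rw [down_deg Q hQ]
    exact Nat.le_mul_of_pos_right _ (MI.deg_pos Q)
  have hZ1 : ∀ P : MI k, (X : PowerSeries (ZMod 2)) ^ P.1.natDegree ∣ Z P - 1 :=
    fun P => dvd_one_add le_rfl
  have hΦ1 : ∀ P : MI k, (X : PowerSeries (ZMod 2)) ^ P.1.natDegree ∣ Φ P - 1 := by
    intro P
    have h := prod_congr_mod (facs (P.1.comp f))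
      (fun R => (1 + X ^ R.1.natDegree : PowerSeries (ZMod 2))) (fun _ => 1) P.1.natDegree
      (fun R hR => dvd_one_add (hdeg P R hR))
    rwa [Finset.prod_const_one] at h
  have hloc : ∀ P : MI k, (X : PowerSeries ℤ) ^ P.1.natDegree ∣
      (if ¬ P.1 ∣ D then locA (tw f e D P) P.1.natDegree else 1) - 1 := by
    intro P
    split_ifs with hv
    · rw [sub_self]; exact dvd_zero _
    · exact locA_dvd (tw f e D P) (MI.deg_pos P)
  have hW1 : ∀ P : MI k, (X : PowerSeries (ZMod 2)) ^ P.1.natDegree ∣ W P - 1 := by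
    intro P
    have h3 := map_dvd red2 (hloc P)
    rwa [map_sub, map_one, map_pow, PowerSeries.map_X] at h3
  have hWS : ∀ P ∈ facs D, W P = 1 := by
    intro P hP
    rw [mem_facs hD] at hP
    show red2 (if ¬ P.1 ∣ D then locA (tw f e D P) P.1.natDegree else 1) = 1
    rw [if_neg (not_not.2 hP), map_one]
  -- the local computation
  have hlocal : ∀ P, P ∉ facs D → Φ P * W P = if P = epl f e then 1 + X else 1 := by
    intro P hP
    rw [mem_facs hD] at hP
    have h1 := locA_mod (card_RF' hq P) (tw_ne (e := e) hf hP) (MI.deg_pos P)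
    have h2 : W P = red2 (locA (tw f e D P) P.1.natDegree) := by
      show red2 (if ¬ P.1 ∣ D then locA (tw f e D P) P.1.natDegree else 1) = _
      rw [if_pos hP]
    have h3 : Φ P = ∏ Q ∈ facs (fib f P),
        (1 + X ^ (P.1.natDegree * Q.1.natDegree) : PowerSeries (ZMod 2)) :=
      (prod_local f P (fib_ne hf P) (comp_ne hf P)
        (fun n => (1 + X ^ n : PowerSeries (ZMod 2)))).symm
    rw [facs_tw hf hP, ← h2] at h1
    rw [h3]
    split_ifs with hPe
    · have h4 : ept e P ∈ facs (fib f P) := (mem_facs (fib_ne hf P) _).2 (ept_dvd.2 hPe)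
      rw [Finset.insert_eq_of_mem h4] at h1
      rw [mul_comm, h1, hPe, epl_deg, pow_one]
    · have h4 : ept e P ∉ facs (fib f P) := fun h =>
        hPe (ept_dvd.1 ((mem_facs (fib_ne hf P) _).1 h))
      rw [Finset.prod_insert h4, ept_deg, mul_one] at h1
      apply mul_left_cancel₀ (mod_pow_ne_zero (MI.deg_pos P))
      rw [mul_one]
      linear_combination h1
  have hLS : red2 (LF f e D) = eulerProd (fun P : MI k => P.1.natDegree) W := by
    rw [LF_eq f e D, map_eulerProd hfd]
  have key := fin_factor (F := fun P => Φ P * W P) (W := fun _ => (1 : PowerSeries (ZMod 2))) hfd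
    (fun P => one_mod_mul (hΦ1 P) (hW1 P)) (fun P => by rw [sub_self]; exact dvd_zero _)
    (insert (epl f e) (facs D)) (fun P hP => by
      rw [Finset.mem_insert, not_or] at hP
      rw [hlocal P hP.2, if_neg hP.1])
  rw [Finset.prod_const_one, mul_one] at key
  have hone : eulerProd (fun P : MI k => P.1.natDegree) (fun _ => (1 : PowerSeries (ZMod 2))) = 1 := by
    unfold eulerProd
    ext n
    rw [coeff_mk]
    simp only [finprod_one]
  rw [hone, one_mul] at key
  have hEΦ : eulerProd (fun P : MI k => P.1.natDegree) Φ = 1 + X := by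
    rw [hΦ]
    have h1 : eulerProd (fun P : MI k => P.1.natDegree)
        (fun P => ∏ R ∈ facs (P.1.comp f), (1 + X ^ R.1.natDegree : PowerSeries (ZMod 2))) =
        eulerProd (fun P : MI k => P.1.natDegree) Z :=
      eulerProd_fiber hfd hfd hZ1 (fun P => facs (P.1.comp f))
        (fun R => by
          obtain ⟨P, hP⟩ := exists_over (f := f) R
          exact ⟨P, (hmem P R).2 hP⟩)
        (fun P P' R hR hR' => over_unique R P P' ((hmem P R).1 hR) ((hmem P' R).1 hR')) hdeg
    rw [h1]
    have h2 := euler_irr (F := k) (ZMod 2)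
    rw [hq, PowerSeries.C.map_one, one_mul, neg_eq_two] at h2
    rw [← h2]
    congr 1
    funext P
    rw [neg_eq_two]
  rw [eulerProd_mul hfd hΦ1 hW1, hEΦ, ← hLS] at key
  have hins : ∏ P ∈ insert (epl f e) (facs D), (Φ P * W P) =
      (if (epl f e).1 ∣ D then 1 else 1 + X) * ∏ P ∈ facs D, Φ P := by
    have h1 : ∏ P ∈ facs D, (Φ P * W P) = ∏ P ∈ facs D, Φ P := by
      rw [Finset.prod_mul_distrib, Finset.prod_eq_one (fun v hv => hWS v hv), mul_one]
    by_cases he : (epl f e).1 ∣ D
    · rw [Finset.insert_eq_of_mem ((mem_facs hD _).2 he), if_pos he, one_mul, h1]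
    · have he' : epl f e ∉ facs D := fun h => he ((mem_facs hD _).1 h)
      rw [Finset.prod_insert he', if_neg he, h1, hlocal _ he', if_pos rfl]
  rw [hins] at key
  have hloc1 := locA_mod hq hD one_pos
  simp only [one_mul, pow_one] at hloc1
  rw [map_mul]
  have h9 : red2 (LF f e D) * red2 (locA D 1) * ∏ P ∈ facs D, (1 + X ^ P.1.natDegree) =
      red2 (LF f e D) * (red2 (locA D 1) * ∏ P ∈ facs D, (1 + X ^ P.1.natDegree)) := by ring
  rw [h9, hloc1]
  show red2 (LF f e D) * (1 + X) = (if (epl f e).1 ∣ D then 1 else 1 + X) * ∏ P ∈ facs D, Φ P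
  rw [← key]
  ring

end

end Pool.Agent.TH943.CY
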