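import Pool.Agent.TH943.CY.Glob

/-!
The order of vanishing for the twists of the Jacobian of `y ^ 2 = (x - e) (f(x) - t)`.
-/

set_option autoImplicit false
set_option maxHeartbeats 1000000

open PowerSeries

namespace Pool.Agent.TH943.CY

open Pool.Agent.W313.Hyp Pool.Agent.W343.BSD Pool.Agent.TH943.HJ

section

variable {k : Type} [Field k] [Finite k]

theorem order_bound (hq : ((Nat.card k : ℕ) : ZMod 2) = 1) {f : Polynomial k} {e : k}
    {D : Polynomial k} (hf : 0 < f.natDegree) (hD : D ≠ 0) (a b : ℕ) (G : Polynomial ℤ)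
    (hG : LF f e D * locA D 1 =
      (((1 - Polynomial.C (Nat.card k : ℤ) * Polynomial.X) ^ a *
        (1 + Polynomial.C (Nat.card k : ℤ) * Polynomial.X) ^ b * G :
        Polynomial ℤ) : PowerSeries ℤ)) :
    a + b + ∑ P ∈ facs D, twoPart P.1.natDegree ≤
      1 + ∑ P ∈ facs D, ∑ R ∈ facs (P.1.comp f), twoPart R.1.natDegree := by
  classical
  have hid := identity (e := e) hq hf hD
  set GG : Polynomial (ZMod 2) := G.map (Int.castRingHom (ZMod 2)) with hGG
  have hred : red2 (LF f e D * locA D 1) =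
      (((1 + Polynomial.X) ^ (a + b) * GG : Polynomial (ZMod 2)) : PowerSeries (ZMod 2)) := by
    rw [hG, red2_poly]
    congr 1
    rw [Polynomial.map_mul, Polynomial.map_mul, Polynomial.map_pow, Polynomial.map_pow,
      Polynomial.map_sub, Polynomial.map_add, Polynomial.map_one,
      Polynomial.map_mul, Polynomial.map_C, Polynomial.map_X]
    have h3 : (Int.castRingHom (ZMod 2)) (Nat.card k : ℤ) = 1 := by
      rw [eq_intCast, Int.cast_natCast, hq]
    rw [h3, map_one, one_mul, CharTwo.sub_eq_add, ← pow_add]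
  set A : Polynomial (ZMod 2) := ∏ P ∈ facs D, (1 + Polynomial.X ^ P.1.natDegree) with hA
  set B : Polynomial (ZMod 2) :=
    ∏ P ∈ facs D, ∏ R ∈ facs (P.1.comp f), (1 + Polynomial.X ^ R.1.natDegree) with hB
  have eA : ((A : Polynomial (ZMod 2)) : PowerSeries (ZMod 2)) =
      ∏ P ∈ facs D, (1 + X ^ P.1.natDegree) := by
    rw [hA, coe_prod]
    exact Finset.prod_congr rfl fun v _ => coe_zf' _
  have eB : ((B : Polynomial (ZMod 2)) : PowerSeries (ZMod 2)) =
      ∏ P ∈ facs D, ∏ R ∈ facs (P.1.comp f), (1 + X ^ R.1.natDegree) := by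
    rw [hB, coe_prod]
    refine Finset.prod_congr rfl fun v _ => ?_
    rw [coe_prod]
    exact Finset.prod_congr rfl fun P _ => coe_zf' _
  obtain ⟨E, hE, hE0, hEm⟩ : ∃ E : Polynomial (ZMod 2), ((E : Polynomial (ZMod 2)) :
      PowerSeries (ZMod 2)) = (if (epl f e).1 ∣ D then 1 else 1 + X) ∧ E ≠ 0 ∧ mu E ≤ 1 := by
    split_ifs with he
    · refine ⟨1, Polynomial.coe_one, one_ne_zero, ?_⟩
      have h1 : mu (1 : Polynomial (ZMod 2)) = 0 := by
        have := mu_mul (one_ne_zero : (1 : Polynomial (ZMod 2)) ≠ 0) one_ne_zero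
        rw [mul_one] at this
        omega
      rw [h1]
      exact Nat.zero_le _
    · exact ⟨1 + Polynomial.X, coe_one_X, one_add_X_ne, mu_one_add_X.le⟩
  have hpoly : (1 + Polynomial.X) ^ (a + b) * GG * A = E * B := by
    apply coe_inj2
    rw [Polynomial.coe_mul _ A, ← hred, eA, Polynomial.coe_mul E B, hE, eB]
    exact hid
  have hA0 : ∀ P ∈ facs D, (1 + Polynomial.X ^ P.1.natDegree : Polynomial (ZMod 2)) ≠ 0 :=
    fun P _ => one_add_ne (MI.deg_pos P)
  have hB00 : ∀ P : MI k, ∀ R ∈ facs (P.1.comp f),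
      (1 + Polynomial.X ^ R.1.natDegree : Polynomial (ZMod 2)) ≠ 0 :=
    fun _ R _ => one_add_ne (MI.deg_pos R)
  have hB0 : ∀ P ∈ facs D, ∏ R ∈ facs (P.1.comp f),
      (1 + Polynomial.X ^ R.1.natDegree : Polynomial (ZMod 2)) ≠ 0 :=
    fun P _ => Finset.prod_ne_zero_iff.2 (hB00 P)
  have hBne : B ≠ 0 := Finset.prod_ne_zero_iff.2 hB0
  have hAne : A ≠ 0 := Finset.prod_ne_zero_iff.2 hA0
  have hL0 : (1 + Polynomial.X) ^ (a + b) * GG ≠ 0 := by
    intro h
    rw [h, zero_mul] at hpoly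
    exact mul_ne_zero hE0 hBne hpoly.symm
  have hmu := congrArg mu hpoly
  rw [mu_mul hL0 hAne, mu_mul (left_ne_zero_of_mul hL0) (right_ne_zero_of_mul hL0),
    mu_pow one_add_X_ne, mu_one_add_X, mul_one, mu_mul hE0 hBne] at hmu
  have m1 : mu A = ∑ P ∈ facs D, twoPart P.1.natDegree := by
    rw [hA, mu_prod _ _ hA0]
    exact Finset.sum_congr rfl fun P _ => mu_one_add (MI.deg_pos P)
  have m2 : mu B = ∑ P ∈ facs D, ∑ R ∈ facs (P.1.comp f), twoPart R.1.natDegree := by
    rw [hB, mu_prod _ _ hB0]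
    refine Finset.sum_congr rfl fun P _ => ?_
    rw [mu_prod _ _ (hB00 P)]
    exact Finset.sum_congr rfl fun R _ => mu_one_add (MI.deg_pos R)
  rw [m1, m2] at hmu
  omega

open Classical in
/-- the sum of the two orders -/
theorem order_le (h2 : (2 : k) ≠ 0) {f D : Polynomial k} {e : k}
    (hf : Odd f.natDegree) (hD : D ≠ 0) (R : Polynomial k → Prop)
    (hR : ∀ P : MI k, ¬ R P.1 → ∑ Q ∈ facs (P.1.comp f), twoPart Q.1.natDegree =
      twoPart P.1.natDegree) (a b : ℕ) (G : Polynomial ℤ)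
    (hG : LF f e D * locA D 1 =
      (((1 - Polynomial.C (Nat.card k : ℤ) * Polynomial.X) ^ a *
        (1 + Polynomial.C (Nat.card k : ℤ) * Polynomial.X) ^ b * G :
        Polynomial ℤ) : PowerSeries ℤ)) :
    a + b ≤ 1 + (f.natDegree - 1) *
      ∑ P ∈ (primes D).filter (fun P => R P), twoPart P.natDegree := by
  have h1 := order_bound (card_odd h2) hf.pos hD a b G hG
  have h3 : ∑ P ∈ facs D, ∑ Q ∈ facs (P.1.comp f), twoPart Q.1.natDegree ≤
      ∑ P ∈ facs D, (twoPart P.1.natDegree + if R P.1 then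
        (f.natDegree - 1) * twoPart P.1.natDegree else 0) := by
    refine Finset.sum_le_sum fun P _ => ?_
    split_ifs with h
    · have h4 := Pool.Agent.TH943.PT.sum_over_le hf.pos P
      have h5 := hf.pos
      obtain ⟨e, he⟩ : ∃ e, f.natDegree = e + 1 := ⟨f.natDegree - 1, by omega⟩
      rw [he] at h4 ⊢
      rw [Nat.add_sub_cancel]
      linarith
    · rw [hR P h, add_zero]
  rw [Finset.sum_add_distrib] at h3
  have h6 : ∑ P ∈ facs D, (if R P.1 then (f.natDegree - 1) * twoPart P.1.natDegree else 0) =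
      (f.natDegree - 1) * ∑ P ∈ (primes D).filter (fun P => R P), twoPart P.natDegree := by
    rw [sum_primes hD (fun P => if R P then (f.natDegree - 1) * twoPart P.natDegree else 0),
      ← Finset.sum_filter, Finset.mul_sum]
  rw [h6] at h3
  omega

end

end Pool.Agent.TH943.CY
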